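import Mathlib
import Pool.Agent.H28.UAlg3

open MeasureTheory Filter Topology
open scoped ENNReal NNReal ComplexConjugate

noncomputable section

namespace Pool.Agent.Results.MP_71b3bb_an.NotReflexive

open Pool.Agent.H28.UAlg

/-- The quotient `X / B`, with the quotient norm, is reflexive: its canonical map into the
bidual is onto. -/
def QuotReflexive {X : Type} [NormedAddCommGroup X] [NormedSpace ℂ X] (B : Submodule ℂ X) :
    Prop :=
  Function.Surjective (NormedSpace.inclusionInDoubleDual ℂ (X ⧸ B))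

def aa (n : ℕ) : ℝ≥0 := (1 / 2) ^ n

lemma aa_ne (n : ℕ) : aa n ≠ 0 := by simp [aa]

instance fin : IsFiniteMeasure (glue fun n => wm (aa n)) := by
  constructor
  unfold glue
  rw [Measure.sum_apply _ MeasurableSet.univ]
  calc _ ≤ ∑' n : ℕ, 2 * ((aa n : ℝ≥0) : ℝ≥0∞) := by
        refine ENNReal.tsum_le_tsum fun n => ?_
        rw [(e_emb n).map_apply, Set.preimage_univ]
        exact wm_univ _
    _ < ⊤ := by
        rw [ENNReal.tsum_mul_left]
        refine ENNReal.mul_lt_top (by simp) (lt_top_iff_ne_top.2 ?_)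
        rw [ENNReal.tsum_coe_ne_top_iff_summable]
        exact NNReal.summable_geometric (by norm_num)

abbrev mu : Measure (PD ℕ) := glue fun n => wm (aa n)

def kap (n : ℕ) (s : PD ℕ) : ℂ := kn aa n s - kn aa 0 s

lemma kap_int (n : ℕ) : Integrable (kap n) mu :=
  (kn_int aa n (aa_ne n)).sub (kn_int aa 0 (aa_ne 0))

def Pr : Lp ℂ 1 mu →L[ℂ] Lp ℂ ⊤ mu →L[ℂ] ℂ :=
  ((ContinuousLinearMap.mul ℂ ℂ).lpPairing mu ⊤ 1).flip

def lam (n : ℕ) : StrongDual ℂ (Lp ℂ ⊤ mu) := Pr ((kap_int n).toL1 _)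

lemma lam_apply (n : ℕ) (h : Lp ℂ ⊤ mu) : lam n h = ∫ s, h s * kap n s ∂mu := by
  unfold lam Pr
  rw [ContinuousLinearMap.flip_apply, ContinuousLinearMap.lpPairing_eq_integral]
  refine integral_congr_ae ?_
  filter_upwards [(kap_int n).coeFn_toL1] with s hs
  rw [hs]
  rfl

lemma lam_norm (n : ℕ) : ‖lam n‖ ≤ ‖Pr‖ * 2 := by
  refine (Pr.le_opNorm _).trans (mul_le_mul_of_nonneg_left ?_ (norm_nonneg _))
  rw [L1.norm_of_fun_eq_integral_norm]
  have i1 := (kn_int aa n (aa_ne n)).norm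
  have i2 := (kn_int aa 0 (aa_ne 0)).norm
  calc _ ≤ ∫ s, (‖kn aa n s‖ + ‖kn aa 0 s‖) ∂mu :=
        integral_mono (kap_int n).norm (i1.add i2) fun s => norm_sub_le _ _
    _ = 2 := by
        rw [integral_add i1 i2, integral_norm_kn aa n (aa_ne n), integral_norm_kn aa 0 (aa_ne 0)]
        norm_num

def Y (r : ℕ) : C(PD ℕ, ℂ) :=
  ⟨fun s => ((∏ j ∈ Finset.range r, (1 - ‖(s (j + 1) : ℂ)‖) : ℝ) : ℂ), by fun_prop⟩

lemma Y_le (r : ℕ) (s : PD ℕ) : ‖Y r s‖ ≤ 1 := by
  have h0 : ∀ j, 0 ≤ 1 - ‖(s (j + 1) : ℂ)‖ := fun j => sub_nonneg.2 (D_norm _)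
  simp only [Y, ContinuousMap.coe_mk, Complex.norm_real]
  rw [Real.norm_of_nonneg (Finset.prod_nonneg fun j _ => h0 j)]
  exact Finset.prod_le_one (fun j _ => h0 j) fun j _ => by linarith [norm_nonneg (s (j + 1) : ℂ)]

lemma Y_one (r n : ℕ) (h : n = 0 ∨ r < n) (θ : T1) : Y r (e n θ) = 1 := by
  simp only [Y, ContinuousMap.coe_mk]
  rw [Finset.prod_eq_one, Complex.ofReal_one]
  intro j hj
  rw [Finset.mem_range] at hj
  rw [e_ne (by omega), norm_zero, sub_zero]

lemma Y_zero (r n : ℕ) (h : n < r) (θ : T1) : Y r (e (n + 1) θ) = 0 := by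
  simp only [Y, ContinuousMap.coe_mk]
  rw [Finset.prod_eq_zero (Finset.mem_range.2 h), Complex.ofReal_zero]
  rw [e_self, norm_f1, sub_self]

lemma lam_Y (n r : ℕ) : lam n (ContinuousMap.toLp ⊤ mu ℂ (Y r)) =
    ∫ θ, Y r (e n θ) ∂m - ∫ θ, Y r (e 0 θ) ∂m := by
  rw [lam_apply, ← integral_mul_kn_sub aa aa_ne n 0 _ (Y r).continuous]
  refine integral_congr_ae ?_
  filter_upwards [ContinuousMap.coeFn_toLp (p := ⊤) mu (𝕜 := ℂ) (Y r)] with s hs
  exact congrArg (· * _) hs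

theorem result :
    ∃ (S : Type) (_ : TopologicalSpace S) (_ : CompactSpace S)
      (_ : TopologicalSpace.MetrizableSpace S) (_ : MeasurableSpace S) (_ : BorelSpace S)
      (A : Subalgebra ℂ C(S, ℂ)) (μ : FiniteMeasure S),
      Good A ∧ μ ∈ (K A μ).extremePoints ℝ≥0 ∧
      ∃ B : Submodule ℂ (Lp ℂ ⊤ (μ : Measure S)), (B : Set _) = WkClosure A μ ∧
        ¬ QuotReflexive B := by
  refine ⟨PD ℕ, inferInstance, inferInstance, inferInstance, inferInstance, inferInstance,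
    Alg ℕ, ⟨mu, fin⟩, good, ?_, wkSub _ _, rfl, ?_⟩
  · rw [K_eq aa, extremePoints_singleton]
    rfl
  · refine not_refl (L := Lp ℂ ⊤ mu) _ (fun r => ContinuousMap.toLp ⊤ mu ℂ (Y r))
      (fun n => lam (n + 1)) (max 1 (‖Pr‖ * 2)) (fun r => le_trans ?_ (le_max_left _ _))
      (fun n => (lam_norm _).trans (le_max_right _ _)) (fun n b hb => ?_) (fun n => ?_)
      (fun r => ?_)
    · have := Lp.norm_le_of_ae_bound (f := ContinuousMap.toLp ⊤ mu ℂ (Y r)) zero_le_one (by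
        filter_upwards [ContinuousMap.coeFn_toLp (p := ⊤) mu (𝕜 := ℂ) (Y r)] with s hs
        rw [hs]; exact Y_le r s)
      simpa using this
    · rw [lam_apply]
      exact wk_annih (Alg ℕ) ⟨mu, fin⟩ _ (kap_int _)
        (fun f hf g hg => kn_annih aa aa_ne _ 0 f hf g hg) b hb
    · filter_upwards [eventually_gt_atTop n] with r hr
      rw [lam_Y]
      simp [Y_zero r n hr, Y_one r 0 (Or.inl rfl)]
    · filter_upwards [eventually_ge_atTop r] with n hn
      rw [lam_Y]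
      simp [Y_one r (n + 1) (Or.inr (by omega)), Y_one r 0 (Or.inl rfl)]

end Pool.Agent.Results.MP_71b3bb_an.NotReflexive
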